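import Pool.Agent.W770.KP.Stm

set_option autoImplicit false
open scoped Classical
open Filter Topology

namespace Pool.Agent.W344.KP

open Pool.Agent.W770.KP

theorem chr : S_CHR := by
  intro m ⟨C, hC, h⟩
  refine ⟨C, hC, ?_⟩
  intro F _ _ g hg b
  have key : ∀ n : ℕ, ∑ y : Fin m → F, (∑ t : F, g (b y + t • (Fin.cons 1 y : Fin (m+1) → F))) ^ (m+1)
      ≤ C * (Fintype.card F : ℝ) ^ m * ∑ x : Fin (m+1) → F, (g x + 1 / ((n : ℝ) + 1)) ^ (m+1) := by
    intro n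
    have hr : (0 : ℝ) < (n : ℝ) + 1 := by positivity
    have h1 := h F (fun x => ⌈((n : ℝ) + 1) * g x⌉₊) b
    have hL : ((n : ℝ) + 1) ^ (m+1) * ∑ y : Fin m → F,
        (∑ t : F, g (b y + t • (Fin.cons 1 y : Fin (m+1) → F))) ^ (m+1) ≤
        ∑ y : Fin m → F, ((∑ t : F, ⌈((n : ℝ) + 1) *
          g (b y + t • (Fin.cons 1 y : Fin (m+1) → F))⌉₊ : ℕ) : ℝ) ^ (m+1) := by
      rw [Finset.mul_sum]
      refine Finset.sum_le_sum (fun y _ => ?_)
      rw [← mul_pow, Finset.mul_sum]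
      refine pow_le_pow_left₀ (Finset.sum_nonneg (fun t _ => mul_nonneg hr.le (hg _))) ?_ _
      push_cast
      exact Finset.sum_le_sum (fun t _ => Nat.le_ceil _)
    have hR : ∑ x : Fin (m+1) → F, ((⌈((n : ℝ) + 1) * g x⌉₊ : ℕ) : ℝ) ^ (m+1) ≤
        ((n : ℝ) + 1) ^ (m+1) * ∑ x : Fin (m+1) → F, (g x + 1 / ((n : ℝ) + 1)) ^ (m+1) := by
      rw [Finset.mul_sum]
      refine Finset.sum_le_sum (fun x _ => ?_)
      rw [← mul_pow]
      refine pow_le_pow_left₀ (Nat.cast_nonneg _) ?_ _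
      have h2 := (Nat.ceil_lt_add_one (mul_nonneg hr.le (hg x))).le
      have h3 : ((n : ℝ) + 1) * (g x + 1 / ((n : ℝ) + 1)) = ((n : ℝ) + 1) * g x + 1 := by
        field_simp
      rw [h3]
      exact h2
    have hq : (0 : ℝ) ≤ C * (Fintype.card F : ℝ) ^ m := by positivity
    have h4 : ((n : ℝ) + 1) ^ (m+1) * ∑ y : Fin m → F,
        (∑ t : F, g (b y + t • (Fin.cons 1 y : Fin (m+1) → F))) ^ (m+1) ≤
        ((n : ℝ) + 1) ^ (m+1) * (C * (Fintype.card F : ℝ) ^ m *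
          ∑ x : Fin (m+1) → F, (g x + 1 / ((n : ℝ) + 1)) ^ (m+1)) := by
      calc _ ≤ _ := hL
        _ ≤ _ := h1
        _ ≤ C * (Fintype.card F : ℝ) ^ m * (((n : ℝ) + 1) ^ (m+1) *
          ∑ x : Fin (m+1) → F, (g x + 1 / ((n : ℝ) + 1)) ^ (m+1)) :=
            mul_le_mul_of_nonneg_left hR hq
        _ = _ := by ring
    exact le_of_mul_le_mul_left h4 (by positivity)
  have ht : Tendsto (fun n : ℕ => C * (Fintype.card F : ℝ) ^ m *
      ∑ x : Fin (m+1) → F, (g x + 1 / ((n : ℝ) + 1)) ^ (m+1)) atTop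
      (𝓝 (C * (Fintype.card F : ℝ) ^ m * ∑ x : Fin (m+1) → F, (g x + 0) ^ (m+1))) := by
    refine Tendsto.const_mul _ (tendsto_finsetSum _ (fun x _ => ?_))
    exact (tendsto_const_nhds.add tendsto_one_div_add_atTop_nhds_zero_nat).pow _
  simp only [add_zero] at ht
  exact ge_of_tendsto' ht key

end Pool.Agent.W344.KP
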